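import Pool.Agent.N243.Levels

/-!
# Distributions on signings: every row, all levels
-/

namespace Pool.Agent.N243

open Finset Real H167FK

variable {m n : ℕ}

/-- The bound. -/
noncomputable def bd (t ε : ℝ) : ℝ :=
  min (3120 * Real.sqrt t + 832000 * Real.sqrt (Real.log (1 / ε))
      * (1 + Real.log t) ^ (3 / 2 : ℝ))
    (42500 * Real.sqrt t * (Real.log (1 / ε)) ^ (1 / 4 : ℝ))

theorem exists_params (ε : ℝ) (h0 : 0 < ε) (h1 : ε ≤ 1 / 2) :
    ∃ (M : ℕ) (L s : ℝ), 256 ≤ M ∧ 1 ≤ L ∧ 1 ≤ s ∧ 960 * L ≤ s ^ 4 ∧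
      43 * (M : ℝ) * exp (-L) ≤ 1 ∧ 344064 * s ^ 4 / (M : ℝ) ^ 2 ≤ ε ∧
      L ≤ 35 * Real.log (1 / ε) ∧ 1 / ε ≤ M ∧ 256 / (M : ℝ) ≤ ε := by
  set M : ℕ := ⌈100000000 / ε⌉₊ with hM
  have hM1 : 100000000 / ε ≤ (M : ℝ) := Nat.le_ceil _
  have hM2 : (M : ℝ) < 100000000 / ε + 1 := Nat.ceil_lt_add_one (by positivity)
  have hε : (2 : ℝ) ≤ 1 / ε := by
    rw [le_div_iff₀ h0]; linarith
  have hMbig : (200000000 : ℝ) ≤ M := by
    refine le_trans ?_ hM1
    rw [le_div_iff₀ h0]; linarith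
  have hM0 : (0 : ℝ) < M := by linarith
  have hMε : 100000000 ≤ ε * M := by
    rw [div_le_iff₀ h0] at hM1
    linarith
  set L : ℝ := Real.log (43 * M) with hL
  have hexpL : exp (-L) = 1 / (43 * M) := by
    rw [exp_neg, hL, Real.exp_log (by positivity), one_div]
  have hL1 : 1 ≤ L := by
    rw [hL, Real.le_log_iff_exp_le (by positivity)]
    have := Real.exp_one_lt_d9
    linarith
  have hs0 : 0 ≤ 960 * L := by linarith
  have hs1 : (1 : ℝ) ≤ Real.sqrt (Real.sqrt (960 * L)) := by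
    rw [Real.one_le_sqrt, Real.one_le_sqrt]
    linarith
  have hs4 : Real.sqrt (Real.sqrt (960 * L)) ^ 4 = 960 * L := by
    have e1 : Real.sqrt (Real.sqrt (960 * L)) ^ 2 = Real.sqrt (960 * L) :=
      Real.sq_sqrt (Real.sqrt_nonneg _)
    have e2 : Real.sqrt (960 * L) ^ 2 = 960 * L := Real.sq_sqrt hs0
    calc Real.sqrt (Real.sqrt (960 * L)) ^ 4 = (Real.sqrt (Real.sqrt (960 * L)) ^ 2) ^ 2 := by ring
      _ = _ := by rw [e1, e2]
  have hM3 : 1 / ε ≤ (M : ℝ) := by
    refine le_trans ?_ hM1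
    rw [div_le_div_iff_of_pos_right h0]
    norm_num
  refine ⟨M, L, Real.sqrt (Real.sqrt (960 * L)), ?_, hL1, hs1, hs4.ge, ?_, ?_, ?_, hM3, ?_⟩
  · have : (256 : ℝ) ≤ M := by linarith
    exact_mod_cast this
  · rw [hexpL]
    apply le_of_eq
    field_simp
  · rw [hs4, div_le_iff₀ (by positivity)]
    have e1 : L = Real.log 200 + Real.log (43 * M / 200) := by
      rw [hL, ← Real.log_mul (by norm_num) (by positivity)]
      congr 1
      field_simp
    have e2 : Real.log (43 * M / 200) ≤ 43 * M / 200 - 1 :=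
      Real.log_le_sub_one_of_pos (by positivity)
    have e3 : Real.log 200 ≤ 200 - 1 := Real.log_le_sub_one_of_pos (by norm_num)
    have e4 : L ≤ 216 / 1000 * M := by linarith
    calc 344064 * (960 * L) = 330301440 * L := by ring
      _ ≤ 330301440 * (216 / 1000 * M) := by linarith
      _ ≤ 100000000 * M := by linarith
      _ ≤ (ε * M) * M := mul_le_mul_of_nonneg_right hMε hM0.le
      _ = ε * (M : ℝ) ^ 2 := by ring
  · have e1 : 43 * (M : ℝ) ≤ 4400000000 * (1 / ε) := by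
      have : 100000000 / ε = 100000000 * (1 / ε) := by ring
      rw [this] at hM2
      linarith
    have e2 : L ≤ Real.log (4400000000 * (1 / ε)) := by
      rw [hL]
      exact Real.log_le_log (by positivity) e1
    have e3 : Real.log (4400000000 * (1 / ε)) = Real.log 4400000000 + Real.log (1 / ε) :=
      Real.log_mul (by norm_num) (by positivity)
    have e4 : Real.log 4400000000 ≤ 23 := by
      rw [Real.log_le_iff_le_exp (by norm_num)]
      have h2 := Real.exp_one_gt_d9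
      have h3 : (2.7 : ℝ) ^ 23 ≤ exp 1 ^ 23 := by
        apply pow_le_pow_left₀ (by norm_num); linarith
      have h4 : exp 23 = exp 1 ^ 23 := by rw [← exp_nat_mul]; norm_num
      rw [h4]
      refine le_trans ?_ h3
      norm_num
    have e5 : Real.log 2 ≤ Real.log (1 / ε) := Real.log_le_log (by norm_num) hε
    have e6 := Real.log_two_gt_d9
    linarith
  · rw [div_le_iff₀ hM0]
    linarith

theorem cst_le (t ε L : ℝ) (ht : 1 ≤ t) (hL : 1 ≤ L)
    (hL2 : L ≤ 35 * Real.log (1 / ε)) : 6 * cst t L ≤ bd t ε := by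
  set X := Real.log (1 / ε) with hX
  have hX0 : 0 ≤ X := by linarith
  have hlog : 0 ≤ Real.log t := Real.log_nonneg ht
  have hst : 0 ≤ Real.sqrt t := Real.sqrt_nonneg _
  have hsX : 0 ≤ Real.sqrt X := Real.sqrt_nonneg _
  have hp : 0 ≤ (1 + Real.log t) ^ (3 / 2 : ℝ) := by positivity
  have e1 : Real.sqrt (960 * L) ≤ 184 * Real.sqrt X := by
    apply Real.sqrt_le_iff.mpr
    refine ⟨by positivity, ?_⟩
    rw [mul_pow, Real.sq_sqrt hX0]
    linarith
  have e2 : Real.sqrt (Real.sqrt (960 * L)) ≤ 13.6 * X ^ (1 / 4 : ℝ) := by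
    apply Real.sqrt_le_iff.mpr
    refine ⟨by positivity, ?_⟩
    have e3 : (X ^ (1 / 4 : ℝ)) ^ 2 = Real.sqrt X := by
      rw [← Real.rpow_natCast, ← Real.rpow_mul hX0, Real.sqrt_eq_rpow]
      norm_num
    rw [mul_pow, e3]
    have : (13.6 : ℝ) ^ 2 = 184.96 := by norm_num
    rw [this]
    linarith
  unfold cst bd
  apply le_min
  · calc 6 * min _ _ ≤ 6 * (520 * Real.sqrt t
          + 753 * Real.sqrt (960 * L) * (1 + Real.log t) ^ (3 / 2 : ℝ)) :=
          mul_le_mul_of_nonneg_left (min_le_left _ _) (by norm_num)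
      _ ≤ 6 * (520 * Real.sqrt t
          + 753 * (184 * Real.sqrt X) * (1 + Real.log t) ^ (3 / 2 : ℝ)) := by
          have := mul_le_mul_of_nonneg_right e1 hp
          linarith
      _ ≤ _ := by
          have : 0 ≤ Real.sqrt X * (1 + Real.log t) ^ (3 / 2 : ℝ) := mul_nonneg hsX hp
          linarith
  · calc 6 * min _ _ ≤ 6 * (520 * Real.sqrt (Real.sqrt (960 * L)) * Real.sqrt t) :=
          mul_le_mul_of_nonneg_left (min_le_right _ _) (by norm_num)
      _ ≤ 6 * (520 * (13.6 * X ^ (1 / 4 : ℝ)) * Real.sqrt t) := by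
          have := mul_le_mul_of_nonneg_right e2 hst
          linarith
      _ ≤ _ := by
          have : 0 ≤ X ^ (1 / 4 : ℝ) * Real.sqrt t := mul_nonneg (by positivity) hst
          linarith

/-- The number of phases. -/
theorem phases_le (N M : ℕ) (ε : ℝ) (h0 : 0 < ε) (h1 : ε ≤ 1 / 2) (hM : 2 ≤ M)
    (hMε : 1 / ε ≤ M) :
    ((Nat.log M N : ℕ) : ℝ) ≤ Real.log N / Real.log (1 / ε) := by
  have hε : (2 : ℝ) ≤ 1 / ε := by
    rw [le_div_iff₀ h0]; linarith
  have hl : 0 < Real.log (1 / ε) := Real.log_pos (by linarith)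
  rcases Nat.eq_zero_or_pos N with h | h
  · subst h
    simp
  · rw [le_div_iff₀ hl]
    have h2 : M ^ Nat.log M N ≤ N := Nat.pow_log_le_self M (by omega)
    have h3 : ((M : ℝ)) ^ Nat.log M N ≤ N := by exact_mod_cast h2
    have hM0 : (0 : ℝ) < M := by
      have : 0 < M := by omega
      exact_mod_cast this
    have h4 : Real.log ((M : ℝ) ^ Nat.log M N) ≤ Real.log N := Real.log_le_log (by positivity) h3
    rw [Real.log_pow] at h4
    have h5 : Real.log (1 / ε) ≤ Real.log M := Real.log_le_log (by positivity) hMε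
    exact (mul_le_mul_of_nonneg_left h5 (Nat.cast_nonneg _)).trans h4

theorem bd_ge_one (t ε : ℝ) (ht : 1 ≤ t) (h0 : 0 < ε) (h1 : ε ≤ 1 / 2) : 1 ≤ bd t ε := by
  have hlog : 0 ≤ Real.log t := Real.log_nonneg ht
  have hε : (2 : ℝ) ≤ 1 / ε := by
    rw [le_div_iff₀ h0]; linarith
  have e5 : Real.log 2 ≤ Real.log (1 / ε) := Real.log_le_log (by norm_num) hε
  have e6 := Real.log_two_gt_d9
  have hst : 1 ≤ Real.sqrt t := by rw [Real.one_le_sqrt]; exact ht
  unfold bd
  apply le_min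
  · have : 0 ≤ 832000 * Real.sqrt (Real.log (1 / ε)) * (1 + Real.log t) ^ (3 / 2 : ℝ) := by
      positivity
    linarith
  · have h2 : (1 / 2 : ℝ) ≤ (Real.log (1 / ε)) ^ (1 / 4 : ℝ) := by
      have h3 : (1 / 16 : ℝ) ^ (1 / 4 : ℝ) = 1 / 2 := by
        rw [show (1 / 16 : ℝ) = (1 / 2) ^ (4 : ℕ) by norm_num, ← Real.rpow_natCast,
          ← Real.rpow_mul (by norm_num)]
        norm_num
      rw [← h3]
      exact Real.rpow_le_rpow (by norm_num) (by linarith) (by norm_num)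
    nlinarith

/-- What every signing of the distribution satisfies: signs, a bound for all rows, and the bound
`20 t + bd t ε` if `|a i j| ≤ (a i j) ^ 2`, that is, if the entries are `0`, `1` and `-1`. -/
def Sure (a : Fin m → Fin n → ℝ) (x0 : Fin n → ℝ) (t ε : ℝ) (x : Fin n → ℝ) : Prop :=
  (∀ j, x j = 1 ∨ x j = -1) ∧
  (∀ i, |∑ j, a i j * (x j - x0 j)| ≤
    bd t ε * (1 + Real.log ((min m n : ℕ) : ℝ) / Real.log (1 / ε))) ∧
  ((∀ i j, |a i j| ≤ a i j ^ 2) → ∀ i, |∑ j, a i j * (x j - x0 j)| ≤ 20 * t + bd t ε)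

/-- **Weights on the rows, all levels.** -/
theorem weighted (a : Fin m → Fin n → ℝ) (t : ℝ) (ht : 1 ≤ t) (a1 : ∀ i j, |a i j| ≤ 1)
    (col : ∀ j, ∑ i, a i j ^ 2 ≤ t) (x0 : Fin n → ℝ) (hx0 : ∀ j, |x0 j| ≤ 1)
    (ε : ℝ) (h0 : 0 < ε) (h1 : ε ≤ 1 / 2) (J : ℕ) (q : Fin (J + 1) → Fin m → ℝ)
    (hq0 : ∀ p i, 0 ≤ q p i) :
    ∃ x : Fin n → ℝ, Sure a x0 t ε x ∧ ∀ p : Fin (J + 1),
      ∑ i, (if ((p : ℕ) + 1 : ℕ) * bd t ε < |∑ j, a i j * (x j - x0 j)| then q p i else 0) ≤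
        ε ^ ((p : ℕ) + 1) * ∑ i, q p i := by
  classical
  obtain ⟨M, L, s, hM, hL, hs, hsL, hexp, hR, hL2, hMε, hM256⟩ := exists_params ε h0 h1
  have hc := cst_le t ε L ht hL hL2
  have hc0 : 0 ≤ cst t L := cst_nonneg ht
  have hbd := bd_ge_one t ε ht h0 h1
  obtain ⟨x, hx1, hx2, hx3, hx4⟩ := levels a t ht a1 col L hL s hs hsL M hM hexp (by linarith)
    x0 hx0 J q hq0
  refine ⟨x, ⟨fun j => eq_or_eq_neg_of_abs_eq (hx1 j), fun i => ?_, fun h01 i => ?_⟩, fun p => ?_⟩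
  · refine (hx2 i).trans ?_
    have h3 := phases_le (min m n) M ε h0 h1 (by omega) hMε
    have h4 : (0 : ℝ) ≤ ((Nat.log M (min m n) : ℕ) : ℝ) := Nat.cast_nonneg _
    have h5 : cst t L * ((Nat.log M (min m n) : ℕ) + 2) ≤
        bd t ε * (1 + ((Nat.log M (min m n) : ℕ) : ℝ)) := by nlinarith
    refine h5.trans (mul_le_mul_of_nonneg_left ?_ (by linarith))
    linarith
  · have := hx3 h01 i
    linarith
  · have hM0 : (0 : ℝ) < M := by
      have : 0 < M := by omega
      exact_mod_cast this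
    have hq : 0 ≤ ∑ i, q p i := Finset.sum_nonneg fun i _ => hq0 p i
    have h2 : (256 / (M : ℝ)) ^ ((p : ℕ) + 1) ≤ ε ^ ((p : ℕ) + 1) :=
      pow_le_pow_left₀ (by positivity) hM256 _
    have h3 : 2 * (344064 * s ^ 4 / (M : ℝ) ^ 2 * (256 / (M : ℝ)) ^ ((p : ℕ) + 1)) ≤
        ε ^ ((p : ℕ) + 1) := by
      have h4 : 0 < (256 / (M : ℝ)) ^ ((p : ℕ) + 1) := by positivity
      have h5 : 344064 * s ^ 4 / (M : ℝ) ^ 2 ≤ 1 / 2 := by linarith
      nlinarith
    refine le_trans (Finset.sum_le_sum fun i _ => ?_) ((hx4 p).trans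
      (mul_le_mul_of_nonneg_right h3 hq))
    have h6 : cst t L * (4 + 2 * ((p : ℕ) + 1 : ℕ)) ≤ ((p : ℕ) + 1 : ℕ) * bd t ε := by
      have h7 : (0 : ℝ) ≤ ((p : ℕ) : ℝ) := Nat.cast_nonneg _
      push_cast
      nlinarith
    by_cases h8 : ((p : ℕ) + 1 : ℕ) * bd t ε < |∑ j, a i j * (x j - x0 j)|
    · rw [if_pos h8, if_pos (h6.trans_lt h8)]
    · rw [if_neg h8]
      split_ifs
      · exact hq0 _ _
      · exact le_rfl

/-- **Distributions on signings, all levels.** -/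
theorem distribution (a : Fin m → Fin n → ℝ) (t : ℝ) (ht : 1 ≤ t) (a1 : ∀ i j, |a i j| ≤ 1)
    (col : ∀ j, ∑ i, a i j ^ 2 ≤ t) (x0 : Fin n → ℝ) (hx0 : ∀ j, |x0 j| ≤ 1)
    (ε : ℝ) (h0 : 0 < ε) (h1 : ε ≤ 1 / 2) :
    ∃ (K : ℕ) (w : Fin K → ℝ) (x : Fin K → Fin n → ℝ),
      (∀ k, 0 ≤ w k) ∧ ∑ k, w k = 1 ∧ (∀ k, Sure a x0 t ε (x k)) ∧
      ∀ (i : Fin m) (p : ℕ), 1 ≤ p → ∑ k ∈ Finset.univ.filter
        (fun k => p * bd t ε < |∑ j, a i j * (x k j - x0 j)|), w k ≤ ε ^ p := by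
  classical
  set J : ℕ := 2 * n with hJ
  have hbd := bd_ge_one t ε ht h0 h1
  let f : Fin ((J + 1) * m) ≃ Fin (J + 1) × Fin m := finProdFinEquiv.symm
  let pat : (Fin n → ℝ) → (Fin ((J + 1) * m) → ℝ) := fun x r =>
    if (((f r).1 : ℕ) + 1 : ℕ) * bd t ε < |∑ j, a (f r).2 j * (x j - x0 j)|
    then (1 / ε) ^ (((f r).1 : ℕ) + 1) else 0
  have hsign : {x : Fin n → ℝ | ∀ j, x j = 1 ∨ x j = -1}.Finite := by
    have h2 : {x : Fin n → ℝ | ∀ j, x j = 1 ∨ x j = -1} ⊆
        Set.pi Set.univ fun _ => ({1, -1} : Set ℝ) := by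
      intro x hx j _
      exact hx j
    exact (Set.Finite.pi' fun _ => Set.toFinite ({1, -1} : Set ℝ)).subset
      (fun x hx j => h2 hx j (Set.mem_univ j))
  have hpatfin : (pat '' {x | Sure a x0 t ε x}).Finite :=
    (hsign.subset fun x hx => hx.1).image _
  set Z : Finset (Fin ((J + 1) * m) → ℝ) := hpatfin.toFinset with hZ
  have hZmem : ∀ z ∈ Z, ∃ x, Sure a x0 t ε x ∧ pat x = z := by
    intro z hz
    rw [hZ, Set.Finite.mem_toFinset] at hz
    exact hz
  obtain ⟨w, hw0, hw1, hw2⟩ := H167FK.minimax Z 1 (by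
    intro q hq
    obtain ⟨x, hx1, hx2⟩ := weighted a t ht a1 col x0 hx0 ε h0 h1 J
      (fun p i => q (f.symm (p, i)) * (1 / ε) ^ ((p : ℕ) + 1))
      (fun p i => mul_nonneg (hq _) (by positivity))
    refine ⟨pat x, ?_, ?_⟩
    · rw [hZ, Set.Finite.mem_toFinset]
      exact ⟨x, hx1, rfl⟩
    · rw [one_mul, ← Equiv.sum_comp f.symm (fun r => q r * pat x r), ← Equiv.sum_comp f.symm q,
        Fintype.sum_prod_type, Fintype.sum_prod_type]
      refine Finset.sum_le_sum fun p _ => ?_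
      have h2 := hx2 p
      have h3 : ε ^ ((p : ℕ) + 1) * ∑ i, q (f.symm (p, i)) * (1 / ε) ^ ((p : ℕ) + 1)
          = ∑ i, q (f.symm (p, i)) := by
        rw [← Finset.sum_mul, mul_comm, mul_assoc, ← mul_pow, one_div, inv_mul_cancel₀ h0.ne',
          one_pow, mul_one]
      rw [h3] at h2
      refine le_trans (le_of_eq ?_) h2
      refine Finset.sum_congr rfl fun i _ => ?_
      simp only [pat, Equiv.apply_symm_apply]
      split_ifs <;> simp)
  choose! x hx hxp using hZmem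
  let e : Fin Z.card ≃ Z := Z.equivFin.symm
  refine ⟨Z.card, fun k => w (e k), fun k => x (e k), fun k => hw0 _ (e k).2, ?_, ?_, ?_⟩
  · rw [Equiv.sum_comp e (fun z : Z => w z), Finset.sum_coe_sort Z w]
    exact hw1
  · intro k
    exact hx _ (e k).2
  · intro i p hp
    by_cases hpJ : p ≤ J + 1
    · obtain ⟨p', rfl⟩ : ∃ p', p = p' + 1 := ⟨p - 1, by omega⟩
      have hp' : p' < J + 1 := by omega
      have h2 := hw2 (f.symm (⟨p', hp'⟩, i))
      have h3 : ∑ z ∈ Z, w z * z (f.symm (⟨p', hp'⟩, i)) = (1 / ε) ^ (p' + 1) *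
          ∑ k ∈ Finset.univ.filter (fun k => ((p' + 1 : ℕ) : ℝ) * bd t ε <
            |∑ j, a i j * (x (e k) j - x0 j)|), w (e k) := by
        rw [Finset.sum_filter, Finset.mul_sum,
          ← Finset.sum_coe_sort Z (fun z => w z * z (f.symm (⟨p', hp'⟩, i))),
          ← Equiv.sum_comp e (fun z : Z => w z * (z : Fin ((J + 1) * m) → ℝ)
            (f.symm (⟨p', hp'⟩, i)))]
        refine Finset.sum_congr rfl fun k _ => ?_
        have h4 := hxp _ (e k).2
        have h5 : ((e k : Z) : Fin ((J + 1) * m) → ℝ) (f.symm (⟨p', hp'⟩, i))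
            = if ((p' + 1 : ℕ) : ℝ) * bd t ε < |∑ j, a i j * (x (e k) j - x0 j)|
              then (1 / ε) ^ (p' + 1) else 0 := by
          conv_lhs => rw [← h4]
          simp only [pat, Equiv.apply_symm_apply]
        rw [h5]
        split_ifs
        · ring
        · simp
      rw [h3] at h2
      have h6 : 0 < (1 / ε) ^ (p' + 1) := by positivity
      have h7 : ε ^ (p' + 1) = 1 / (1 / ε) ^ (p' + 1) := by
        rw [one_div, one_div, inv_pow, inv_inv]
      rw [h7, le_div_iff₀ h6, mul_comm]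
      exact h2
    · push Not at hpJ
      have h2 : (Finset.univ.filter (fun k : Fin Z.card => (p : ℝ) * bd t ε <
          |∑ j, a i j * (x (e k) j - x0 j)|)) = ∅ := by
        rw [Finset.filter_eq_empty_iff]
        intro k _
        push Not
        have h3 : |∑ j, a i j * (x (e k) j - x0 j)| ≤ 2 * n := by
          refine (Finset.abs_sum_le_sum_abs _ _).trans ?_
          have h4 : ∀ j ∈ (Finset.univ : Finset (Fin n)),
              |a i j * (x (e k) j - x0 j)| ≤ 2 := by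
            intro j _
            rw [abs_mul]
            have h5 := (hx _ (e k).2).1 j
            have h6 : |x (e k) j - x0 j| ≤ 2 := by
              have h7 := abs_le.mp (hx0 j)
              rw [abs_le]
              rcases h5 with h5 | h5 <;> rw [h5] <;> constructor <;> linarith [h7.1, h7.2]
            have h8 := a1 i j
            have h9 := abs_nonneg (x (e k) j - x0 j)
            nlinarith [abs_nonneg (a i j)]
          refine (Finset.sum_le_sum h4).trans (le_of_eq ?_)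
          rw [Finset.sum_const, Finset.card_univ, Fintype.card_fin, nsmul_eq_mul]
          ring
        have h4 : ((2 * n : ℕ) : ℝ) ≤ (p : ℝ) := by
          exact_mod_cast (by omega : 2 * n ≤ p)
        push_cast at h4
        have h5 : (0 : ℝ) ≤ p := Nat.cast_nonneg p
        nlinarith
      rw [h2, Finset.sum_empty]
      positivity

end Pool.Agent.N243
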