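import Pool.Agent.N243.Rows
import Pool.Agent.H167R2.FKMinimax

/-!
# Several systems of weights on the rows

For every family of weights `q j`, `j = 0, …, J`, on the rows there is one signing such that, for
each `j`, the rows which exceed the `j`-th multiple of the bound have small weight `q j`.
-/

namespace Pool.Agent.N243

open Finset Real H167FK

open H167FK.Sys (alive)

variable {m n : ℕ}

/-- Few rows in each class have small weight. -/
theorem class_sum (M : ℕ) (hM : 2 ≤ M) (ρ : ℝ) (hρ0 : 0 ≤ ρ) (hρ1 : ρ < 1)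
    (D : Finset (Fin m)) (q : Fin m → ℝ) (hq0 : ∀ i, 0 ≤ q i) (hq : Antitone q)
    (hD : ∀ c, (((D ∩ B m M c).card : ℕ) : ℝ) ≤ ρ * (M : ℝ) ^ c) :
    ∑ i ∈ D, q i ≤ 2 * ρ * ∑ i, q i := by
  classical
  have hMR : (2 : ℝ) ≤ M := by exact_mod_cast hM
  have hstep : ∀ c, ∑ i ∈ D ∩ B m M (c + 1), q i ≤ 2 * ρ * ∑ i ∈ B m M c, q i := by
    intro c
    have hMc : (0 : ℝ) < (M : ℝ) ^ (c + 1) := by positivity
    have hQ : 0 ≤ ∑ i ∈ B m M c, q i := Finset.sum_nonneg fun i _ => hq0 i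
    rcases (D ∩ B m M (c + 1)).eq_empty_or_nonempty with h | ⟨j, hj⟩
    · rw [h, Finset.sum_empty]
      positivity
    · have hjB : j ∈ B m M (c + 1) := (Finset.mem_inter.mp hj).2
      have h1 := card_B_ge hM c j hjB
      have h2 : ∀ i ∈ D ∩ B m M (c + 1), q i * ((B m M c).card : ℝ) ≤ ∑ i ∈ B m M c, q i := by
        intro i hi
        have hiB : i ∈ B m M (c + 1) := (Finset.mem_inter.mp hi).2
        rw [mul_comm, ← nsmul_eq_mul]
        apply Finset.card_nsmul_le_sum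
        intro i' hi'
        apply hq
        unfold B at hiB hi'
        have e1 := (Finset.mem_filter.mp hiB).2
        have e2 := (Finset.mem_filter.mp hi').2
        have e3 : (i' : ℕ) < M ^ (c + 1) := Nat.lt_pow_of_log_lt (by omega) (by omega)
        have e4 : (i : ℕ) ≠ 0 := by
          intro h0
          rw [h0] at e1
          simp at e1
        have e5 : M ^ (c + 1) ≤ (i : ℕ) := by
          rw [← e1]
          exact Nat.pow_log_le_self M e4
        exact Fin.le_iff_val_le_val.mpr (by omega)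
      have h3 := Finset.sum_le_sum h2
      rw [← Finset.sum_mul, Finset.sum_const, nsmul_eq_mul] at h3
      set S := ∑ i ∈ D ∩ B m M (c + 1), q i with hS
      set Qc := ∑ i ∈ B m M c, q i with hQc
      have hS0 : 0 ≤ S := Finset.sum_nonneg fun i _ => hq0 i
      have h7 : S * ((M : ℝ) ^ (c + 1) / 2) ≤ ((D ∩ B m M (c + 1)).card : ℝ) * Qc :=
        (mul_le_mul_of_nonneg_left h1 hS0).trans h3
      have h8 : ((D ∩ B m M (c + 1)).card : ℝ) * Qc ≤ ρ * (M : ℝ) ^ (c + 1) * Qc :=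
        mul_le_mul_of_nonneg_right (hD (c + 1)) hQ
      have h9 : (M : ℝ) ^ (c + 1) * S ≤ (M : ℝ) ^ (c + 1) * (2 * ρ * Qc) := by linarith
      exact le_of_mul_le_mul_left h9 hMc
  have hfib : ∑ i ∈ D, q i = ∑ c ∈ range (m + 1), ∑ i ∈ D ∩ B m M c, q i := by
    rw [← Finset.sum_fiberwise_of_maps_to (g := fun i : Fin m => Nat.log M i)
      (t := range (m + 1)) (fun i _ => by
        rw [Finset.mem_range]
        have h1 : Nat.log M i ≤ i := Nat.log_le_self M i
        have := i.2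
        omega)]
    refine Finset.sum_congr rfl fun c _ => Finset.sum_congr ?_ fun _ _ => rfl
    ext i
    unfold B
    simp
  rw [hfib, Finset.sum_range_succ']
  have h0 : D ∩ B m M 0 = ∅ := by
    have h1 := hD 0
    rw [pow_zero, mul_one] at h1
    have h3 : ((D ∩ B m M 0).card : ℝ) < 1 := by linarith
    have h4 : (D ∩ B m M 0).card = 0 := by
      have : (D ∩ B m M 0).card < 1 := by exact_mod_cast h3
      omega
    exact Finset.card_eq_zero.mp h4
  rw [h0, Finset.sum_empty, add_zero]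
  refine (Finset.sum_le_sum fun c _ => hstep c).trans ?_
  rw [← Finset.mul_sum]
  apply mul_le_mul_of_nonneg_left _ (by positivity)
  have h2 : ∑ i, q i = ∑ c ∈ range (m + 1), ∑ i ∈ B m M c, q i := by
    rw [← Finset.sum_fiberwise_of_maps_to (s := (Finset.univ : Finset (Fin m)))
      (g := fun i : Fin m => Nat.log M i)
      (t := range (m + 1)) (fun i _ => by
        rw [Finset.mem_range]
        have h1 : Nat.log M i ≤ i := Nat.log_le_self M i
        have := i.2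
        omega)]
    rfl
  rw [h2]
  refine Finset.sum_le_sum_of_subset_of_nonneg ?_ fun c _ _ =>
    Finset.sum_nonneg fun i _ => hq0 i
  intro c hc
  rw [Finset.mem_range] at hc ⊢
  omega

/-- The combined class function. -/
noncomputable def kap {J : ℕ} (cl : Fin (J + 1) → Fin m → ℕ) (i : Fin m) : ℕ :=
  Finset.univ.inf' ⟨0, Finset.mem_univ _⟩ (fun j : Fin (J + 1) => cl j i + (j : ℕ) + 1)

theorem kap_le {J : ℕ} (cl : Fin (J + 1) → Fin m → ℕ) (j : Fin (J + 1)) (i : Fin m) :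
    kap cl i ≤ cl j i + (j : ℕ) + 1 :=
  Finset.inf'_le (fun j : Fin (J + 1) => cl j i + (j : ℕ) + 1) (Finset.mem_univ j)

theorem kap_lt {J : ℕ} (cl : Fin (J + 1) → Fin m → ℕ) (i : Fin m) (k : ℕ) (h : kap cl i < k) :
    ∃ j : Fin (J + 1), cl j i + (j : ℕ) + 1 < k := by
  unfold kap at h
  rw [Finset.inf'_lt_iff] at h
  obtain ⟨j, -, hj⟩ := h
  exact ⟨j, hj⟩

theorem low_kap {J : ℕ} (cl : Fin (J + 1) → Fin m → ℕ) (M : ℕ) (hM : 2 ≤ M)
    (hcl : ∀ j e, (Finset.univ.filter (fun i => cl j i < e)).card ≤ M ^ e) (k : ℕ) :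
    (low (kap cl) k).card ≤ M ^ k := by
  classical
  set F : Finset (Fin (J + 1)) := Finset.univ.filter (fun j => (j : ℕ) + 1 < k) with hF
  have h1 : low (kap cl) k ⊆
      F.biUnion fun j => Finset.univ.filter (fun i => cl j i < k - ((j : ℕ) + 1)) := by
    intro i hi
    unfold low at hi
    rw [Finset.mem_filter] at hi
    obtain ⟨j, hj⟩ := kap_lt cl i k hi.2
    rw [Finset.mem_biUnion]
    refine ⟨j, ?_, ?_⟩
    · rw [hF, Finset.mem_filter]
      exact ⟨Finset.mem_univ _, by omega⟩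
    · rw [Finset.mem_filter]
      exact ⟨Finset.mem_univ _, by omega⟩
  have h2 : (low (kap cl) k).card ≤ ∑ j ∈ F, M ^ (k - ((j : ℕ) + 1)) := by
    refine (Finset.card_le_card h1).trans (Finset.card_biUnion_le.trans ?_)
    exact Finset.sum_le_sum fun j _ => hcl j _
  have h3 : ∑ j ∈ F, M ^ (k - ((j : ℕ) + 1)) =
      ∑ e ∈ F.image (fun j : Fin (J + 1) => k - ((j : ℕ) + 1)), M ^ e := by
    rw [Finset.sum_image]
    intro j1 hj1 j2 hj2 h
    have e1 : (j1 : ℕ) + 1 < k := by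
      have := Finset.mem_coe.mp hj1
      rw [hF, Finset.mem_filter] at this
      exact this.2
    have e2 : (j2 : ℕ) + 1 < k := by
      have := Finset.mem_coe.mp hj2
      rw [hF, Finset.mem_filter] at this
      exact this.2
    apply Fin.ext
    simp only at h
    omega
  have h4 : ∑ e ∈ F.image (fun j : Fin (J + 1) => k - ((j : ℕ) + 1)), M ^ e < M ^ k := by
    apply Nat.geomSum_lt hM
    intro e he
    rw [Finset.mem_image] at he
    obtain ⟨j, hj, rfl⟩ := he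
    have : (j : ℕ) + 1 < k := by
      rw [hF, Finset.mem_filter] at hj
      exact hj.2
    omega
  rw [h3] at h2
  omega

/-- A double geometric sum. -/
theorem geo (M : ℝ) (hM : 32 ≤ M) (N a : ℕ) :
    ∑ κ ∈ range (N + 1), ∑ l ∈ Finset.Ico a (κ + 1), M ^ (κ + 1 - l) * 16 ^ l
      ≤ 4 * M ^ (N + 1) * (16 / M) ^ a := by
  have hM0 : 0 < M := by linarith
  set r : ℝ := 16 / M with hr
  have hr0 : 0 < r := by positivity
  have hr1 : r ≤ 1 / 2 := by
    rw [hr, div_le_div_iff₀ hM0 (by norm_num)]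
    linarith
  have h1 : ∀ b : ℕ, ∑ l ∈ Finset.Ico a b, r ^ l ≤ 2 * r ^ a := by
    intro b
    rcases le_or_gt a b with hab | hab
    · have h2 : ∀ d : ℕ, ∑ l ∈ Finset.Ico a (a + d), r ^ l + r ^ (a + d) * 2 ≤ 2 * r ^ a := by
        intro d
        induction d with
        | zero => simp [mul_comm]
        | succ d ih =>
          rw [← add_assoc, Finset.sum_Ico_succ_top (by omega)]
          have h3 : r ^ (a + d + 1) * 2 ≤ r ^ (a + d) := by
            rw [pow_succ]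
            have : 0 < r ^ (a + d) := by positivity
            nlinarith
          linarith
      obtain ⟨d, rfl⟩ := Nat.exists_eq_add_of_le hab
      have h3 := h2 d
      have h4 : 0 < r ^ (a + d) := by positivity
      linarith
    · rw [Finset.Ico_eq_empty (by omega), Finset.sum_empty]
      positivity
  have h2 : ∀ κ : ℕ, ∑ l ∈ Finset.Ico a (κ + 1), M ^ (κ + 1 - l) * 16 ^ l
      ≤ M ^ (κ + 1) * (2 * r ^ a) := by
    intro κ
    calc ∑ l ∈ Finset.Ico a (κ + 1), M ^ (κ + 1 - l) * 16 ^ l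
        = ∑ l ∈ Finset.Ico a (κ + 1), M ^ (κ + 1) * r ^ l := by
          refine Finset.sum_congr rfl fun l hl => ?_
          rw [Finset.mem_Ico] at hl
          have h3 : M ^ (κ + 1) = M ^ (κ + 1 - l) * M ^ l := by
            rw [← pow_add]; congr 1; omega
          rw [h3, hr, div_pow, mul_assoc]
          congr 1
          field_simp
      _ = M ^ (κ + 1) * ∑ l ∈ Finset.Ico a (κ + 1), r ^ l := by rw [Finset.mul_sum]
      _ ≤ _ := mul_le_mul_of_nonneg_left (h1 _) (by positivity)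
  have h3 : ∀ N : ℕ, ∑ κ ∈ range (N + 1), M ^ (κ + 1) ≤ 2 * M ^ (N + 1) := by
    intro N
    induction N with
    | zero => simp; linarith
    | succ N ih =>
      rw [Finset.sum_range_succ]
      have h4 : M ^ (N + 1 + 1) = M * M ^ (N + 1) := by ring
      have h5 : 0 < M ^ (N + 1) := by positivity
      rw [h4]
      nlinarith
  calc _ ≤ ∑ κ ∈ range (N + 1), M ^ (κ + 1) * (2 * r ^ a) := Finset.sum_le_sum fun κ _ => h2 κ
    _ = (∑ κ ∈ range (N + 1), M ^ (κ + 1)) * (2 * r ^ a) := by rw [Finset.sum_mul]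
    _ ≤ (2 * M ^ (N + 1)) * (2 * r ^ a) := mul_le_mul_of_nonneg_right (h3 N) (by positivity)
    _ = _ := by ring

/-- The number of lost rows of a class. -/
theorem viol_card (M : ℕ) (hM : 32 ≤ M) (s : ℝ) (κ : Fin m → ℕ) (X : Fin m → Finset ℕ)
    (hX : ∀ i, ∀ l ∈ X i, l ≤ κ i)
    (hbad : ∀ c l, (((Finset.univ.filter (fun i => κ i = c ∧ l ∈ X i)).card : ℕ) : ℝ) ≤
        21 * s ^ 4 * ((M : ℝ) ^ (c + 1 - l) * 16 ^ l))
    (V : Finset (Fin m)) (c p : ℕ) (hV : ∀ i ∈ V, κ i ≤ c + p ∧ ∃ l ∈ X i, 2 * p + 3 ≤ l) :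
    (V.card : ℝ) ≤ 344064 * s ^ 4 / (M : ℝ) ^ 2 * (256 / (M : ℝ)) ^ p * (M : ℝ) ^ c := by
  classical
  have hMR : (32 : ℝ) ≤ M := by exact_mod_cast hM
  have hM0 : (0 : ℝ) < M := by linarith
  have hs4 : 0 ≤ s ^ 4 := by positivity
  let U : ℕ → ℕ → Finset (Fin m) := fun κ' l => Finset.univ.filter (fun i => κ i = κ' ∧ l ∈ X i)
  have h1 : V ⊆ (range (c + p + 1)).biUnion fun κ' =>
      (Finset.Ico (2 * p + 3) (κ' + 1)).biUnion fun l => U κ' l := by
    intro i hi
    obtain ⟨h1, l, hl, h2⟩ := hV i hi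
    have h3 := hX i l hl
    rw [Finset.mem_biUnion]
    refine ⟨κ i, Finset.mem_range.mpr (by omega), ?_⟩
    rw [Finset.mem_biUnion]
    refine ⟨l, Finset.mem_Ico.mpr ⟨h2, by omega⟩, ?_⟩
    simp only [U]
    rw [Finset.mem_filter]
    exact ⟨Finset.mem_univ _, rfl, hl⟩
  have h2 : (V.card : ℝ) ≤ ∑ κ' ∈ range (c + p + 1),
      ∑ l ∈ Finset.Ico (2 * p + 3) (κ' + 1), ((U κ' l).card : ℝ) := by
    have h3 : V.card ≤ ∑ κ' ∈ range (c + p + 1),
        ∑ l ∈ Finset.Ico (2 * p + 3) (κ' + 1), (U κ' l).card := by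
      refine (Finset.card_le_card h1).trans (Finset.card_biUnion_le.trans ?_)
      exact Finset.sum_le_sum fun κ' _ => Finset.card_biUnion_le
    exact_mod_cast h3
  refine h2.trans ?_
  have h3 : ∑ κ' ∈ range (c + p + 1), ∑ l ∈ Finset.Ico (2 * p + 3) (κ' + 1), ((U κ' l).card : ℝ)
      ≤ ∑ κ' ∈ range (c + p + 1), ∑ l ∈ Finset.Ico (2 * p + 3) (κ' + 1),
        21 * s ^ 4 * ((M : ℝ) ^ (κ' + 1 - l) * 16 ^ l) :=
    Finset.sum_le_sum fun κ' _ => Finset.sum_le_sum fun l _ => hbad κ' l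
  refine h3.trans ?_
  have h4 : ∑ κ' ∈ range (c + p + 1), ∑ l ∈ Finset.Ico (2 * p + 3) (κ' + 1),
        21 * s ^ 4 * ((M : ℝ) ^ (κ' + 1 - l) * 16 ^ l)
      = 21 * s ^ 4 * ∑ κ' ∈ range (c + p + 1), ∑ l ∈ Finset.Ico (2 * p + 3) (κ' + 1),
        (M : ℝ) ^ (κ' + 1 - l) * 16 ^ l := by
    rw [Finset.mul_sum]
    exact Finset.sum_congr rfl fun κ' _ => by rw [Finset.mul_sum]
  rw [h4]
  refine (mul_le_mul_of_nonneg_left (geo M hMR (c + p) (2 * p + 3)) (by positivity)).trans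
    (le_of_eq ?_)
  have e1 : (16 / (M : ℝ)) ^ (2 * p + 3) = (256 / (M : ℝ) ^ 2) ^ p * (4096 / (M : ℝ) ^ 3) := by
    rw [pow_add, pow_mul]
    congr 1
    · congr 1
      rw [div_pow]; norm_num
    · rw [div_pow]; norm_num
  have e2 : (256 / (M : ℝ)) ^ p = (256 / (M : ℝ) ^ 2) ^ p * (M : ℝ) ^ p := by
    rw [← mul_pow]
    congr 1
    field_simp
  rw [e1, e2, pow_add (M : ℝ) (c + p) 1, pow_add (M : ℝ) c p, pow_one]
  field_simp
  ring

/-- The class of a row for the weights `q`. -/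
noncomputable def rkc (M : ℕ) (q : Fin m → ℝ) (i : Fin m) : ℕ :=
  Nat.log M (((Tuple.sort (fun i => -q i)).symm i : Fin m) : ℕ)

theorem rkc_card (M : ℕ) (hM : 2 ≤ M) (q : Fin m → ℝ) (e : ℕ) :
    (Finset.univ.filter (fun i => rkc M q i < e)).card ≤ M ^ e := by
  classical
  have h1 : ((Finset.univ.filter (fun i => rkc M q i < e)).map
      (Tuple.sort (fun i => -q i)).symm.toEmbedding).map Fin.valEmbedding
      ⊆ Finset.range (M ^ e) := by
    intro j hj
    rw [Finset.mem_map] at hj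
    obtain ⟨i, hi, rfl⟩ := hj
    rw [Finset.mem_map] at hi
    obtain ⟨i', hi', rfl⟩ := hi
    rw [Finset.mem_filter] at hi'
    rw [Finset.mem_range]
    exact Nat.lt_pow_of_log_lt (by omega) hi'.2
  have h2 := Finset.card_le_card h1
  rwa [Finset.card_map, Finset.card_map, Finset.card_range] at h2

/-- **All levels.** -/
theorem levels (a : Fin m → Fin n → ℝ) (t : ℝ) (ht : 1 ≤ t) (a1 : ∀ i j, |a i j| ≤ 1)
    (col : ∀ j, ∑ i, a i j ^ 2 ≤ t) (L : ℝ) (hL : 1 ≤ L) (s : ℝ) (hs : 1 ≤ s)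
    (hsL : 960 * L ≤ s ^ 4) (M : ℕ) (hM : 256 ≤ M) (hexp : 43 * (M : ℝ) * exp (-L) ≤ 1)
    (hρ : 344064 * s ^ 4 / (M : ℝ) ^ 2 < 1)
    (x0 : Fin n → ℝ) (hx0 : ∀ j, |x0 j| ≤ 1) (J : ℕ) (q : Fin (J + 1) → Fin m → ℝ)
    (hq0 : ∀ j i, 0 ≤ q j i) :
    ∃ x : Fin n → ℝ, (∀ j, |x j| = 1) ∧
      (∀ i, |∑ j, a i j * (x j - x0 j)| ≤ cst t L * ((Nat.log M (min m n) : ℕ) + 2)) ∧
      ((∀ i j, |a i j| ≤ a i j ^ 2) →
        ∀ i, |∑ j, a i j * (x j - x0 j)| ≤ 5 * cst t L + 20 * t) ∧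
      ∀ p : Fin (J + 1),
        ∑ i, (if cst t L * (4 + 2 * ((p : ℕ) + 1 : ℕ)) < |∑ j, a i j * (x j - x0 j)|
          then q p i else 0) ≤
        2 * (344064 * s ^ 4 / (M : ℝ) ^ 2 * (256 / (M : ℝ)) ^ ((p : ℕ) + 1)) * ∑ i, q p i := by
  classical
  have hMR : (256 : ℝ) ≤ M := by exact_mod_cast hM
  have hM0 : (0 : ℝ) < M := by linarith
  let cl : Fin (J + 1) → Fin m → ℕ := fun j => rkc M (q j)
  have hκ : ∀ k, ((low (kap cl) k).card : ℝ) ≤ (M : ℝ) ^ k := by
    intro k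
    exact_mod_cast low_kap cl M (by omega) (fun j e => rkc_card M (by omega) (q j) e) k
  obtain ⟨x, X, hx1, hx2, hx3, hx4, hx5, hx6⟩ := process a t ht a1 col L hL s hs hsL M
    (by omega) hexp (kap cl) hκ x0 hx0
  refine ⟨x, hx1, hx2, hx3, fun p => ?_⟩
  set σ : Equiv.Perm (Fin m) := Tuple.sort (fun i => -q p i) with hσdef
  have hσ : Antitone (q p ∘ σ) := by
    have h7 : Monotone ((fun i => -q p i) ∘ σ) := Tuple.monotone_sort _
    intro i j hij
    have := h7 hij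
    simp only [Function.comp_apply] at this ⊢
    linarith
  set D : Finset (Fin m) := Finset.univ.filter
    (fun i => ∃ l ∈ X (σ i), 2 * ((p : ℕ) + 1) + 3 ≤ l) with hD
  set ρ : ℝ := 344064 * s ^ 4 / (M : ℝ) ^ 2 * (256 / (M : ℝ)) ^ ((p : ℕ) + 1) with hρdef
  have hρ0 : 0 ≤ ρ := by positivity
  have hρ1 : ρ < 1 := by
    have h1 : (256 / (M : ℝ)) ^ ((p : ℕ) + 1) ≤ 1 := by
      apply pow_le_one₀ (by positivity)
      rw [div_le_one hM0]
      exact hMR
    have h2 : 0 ≤ 344064 * s ^ 4 / (M : ℝ) ^ 2 := by positivity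
    calc ρ ≤ 344064 * s ^ 4 / (M : ℝ) ^ 2 * 1 := mul_le_mul_of_nonneg_left h1 h2
      _ < 1 := by rw [mul_one]; exact hρ
  have hcard : ∀ c, (((D ∩ B m M c).card : ℕ) : ℝ) ≤ ρ * (M : ℝ) ^ c := by
    intro c
    have h1 : (((D ∩ B m M c).map σ.toEmbedding).card : ℝ) ≤
        344064 * s ^ 4 / (M : ℝ) ^ 2 * (256 / (M : ℝ)) ^ ((p : ℕ) + 1) * (M : ℝ) ^ c := by
      apply viol_card M (by omega) s (kap cl) X hx5 hx6
      intro i hi
      rw [Finset.mem_map] at hi
      obtain ⟨i', hi', rfl⟩ := hi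
      rw [Finset.mem_inter] at hi'
      obtain ⟨h2, h3⟩ := hi'
      rw [hD, Finset.mem_filter] at h2
      unfold B at h3
      have h4 := (Finset.mem_filter.mp h3).2
      refine ⟨?_, h2.2⟩
      have h5 := kap_le cl p (σ i')
      have h6 : cl p (σ i') = c := by
        simp only [cl, rkc]
        rw [← hσdef, Equiv.symm_apply_apply]
        exact h4
      rw [h6] at h5
      have h7 : σ.toEmbedding i' = σ i' := rfl
      rw [h7]
      omega
    rw [Finset.card_map] at h1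
    exact h1
  have hmain := class_sum M (by omega) ρ hρ0 hρ1 D (q p ∘ σ) (fun i => hq0 p _) hσ hcard
  have hQ : ∑ i, (q p ∘ σ) i = ∑ i, q p i := by
    simp only [Function.comp_apply]
    exact Equiv.sum_comp σ (q p)
  rw [hQ] at hmain
  refine le_trans ?_ hmain
  rw [← Equiv.sum_comp σ (fun i => if cst t L * (4 + 2 * ((p : ℕ) + 1 : ℕ)) <
    |∑ j, a i j * (x j - x0 j)| then q p i else 0)]
  have h1 : ∑ i ∈ D, (q p ∘ σ) i = ∑ i, if i ∈ D then (q p ∘ σ) i else 0 := by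
    rw [Finset.sum_ite_mem, Finset.univ_inter]
  rw [h1]
  refine Finset.sum_le_sum fun i _ => ?_
  by_cases hi : i ∈ D
  · rw [if_pos hi]
    split_ifs
    · exact le_rfl
    · exact hq0 p _
  · rw [if_neg hi]
    have h2 : ∀ l ∈ X (σ i), l < 2 * ((p : ℕ) + 1) + 3 := by
      intro l hl
      by_contra hcon
      push Not at hcon
      exact hi (by rw [hD, Finset.mem_filter]; exact ⟨Finset.mem_univ _, l, hl, hcon⟩)
    have h3 := hx4 (σ i) (2 * ((p : ℕ) + 1)) h2
    rw [if_neg]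
    push Not
    refine h3.trans (le_of_eq ?_)
    push_cast
    ring

end Pool.Agent.N243
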