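import Pool.Agent.N243.Blk

/-!
# One phase of the row-weighted process
-/

namespace Pool.Agent.N243

open Finset Real

/-- The cost of one phase. -/
noncomputable def cst (t L : ℝ) : ℝ :=
  min (520 * Real.sqrt t + 753 * Real.sqrt (960 * L) * (1 + Real.log t) ^ (3 / 2 : ℝ))
    (520 * Real.sqrt (Real.sqrt (960 * L)) * Real.sqrt t)

theorem cst_nonneg {t L : ℝ} (ht : 1 ≤ t) : 0 ≤ cst t L := by
  have hlog : 0 ≤ Real.log t := Real.log_nonneg ht
  unfold cst
  apply le_min <;> positivity

/-- One phase. -/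
theorem phase {I J : Type} [Fintype I] [Fintype J] (a : I → J → ℝ) (t : ℝ) (ht : 1 ≤ t)
    (a1 : ∀ i j, |a i j| ≤ 1) (col : ∀ j, ∑ i, a i j ^ 2 ≤ t) (L : ℝ) (hL : 1 ≤ L)
    (s : ℝ) (hs : 1 ≤ s) (hsL : 960 * L ≤ s ^ 4) (I0 I1 : Finset I) (τ : I → ℝ)
    (τ_pos : ∀ i ∈ I1, 0 < τ i) (τ_le : ∀ i ∈ I1, τ i ≤ 1) (x : J → ℝ) (hx : ∀ j, |x j| ≤ 1)
    (τ_mass : ∀ i ∈ I1, τ i = 1 ∨
      ∑ j ∈ H167FK.Sys.alive x, a i j ^ 2 ≤ t * (τ i / s) ^ 4) :
    ∃ y : J → ℝ, (∀ j, |y j| ≤ 1) ∧ (∀ j, |x j| = 1 → y j = x j) ∧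
      (∀ i ∈ I0, ∑ j, a i j * (y j - x j) = 0) ∧
      (∀ i ∈ I1, |∑ j, a i j * (y j - x j)| ≤ cst t L * τ i) ∧
      (∀ i ∈ I1, 10 * t < ∑ j ∈ H167FK.Sys.alive y, a i j ^ 2 →
        ∑ j, a i j * (y j - x j) = 0) ∧
      ((H167FK.Sys.alive y).card : ℝ) ≤ 20 * I0.card
        + 2 * ((H167FK.Sys.alive x).card : ℝ) * exp (-L) := by
  classical
  set A := H167FK.Sys.alive x with hA
  let Q : Blk I A :=
    { a := fun i j => a i j
      I0 := I0
      I1 := I1
      t := t
      ht := ht
      M := L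
      hM := hL
      a1 := fun i j => a1 i j
      col := fun j => col j
      s := s
      hs := hs
      hsM := hsL
      τ := τ
      τ_pos := τ_pos
      τ_le := τ_le
      τ_mass := fun i hi => by
        rcases τ_mass i hi with h | h
        · exact Or.inl h
        · right
          rw [Finset.sum_coe_sort A (fun j => a i j ^ 2)]
          exact h
      x0 := fun j => x j
      hx0 := fun j => hx j }
  obtain ⟨z, hz1, hz2, hz3, hz5, hz4⟩ := Q.block
  let y : J → ℝ := fun j => if h : j ∈ A then z ⟨j, h⟩ else x j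
  have hsum : ∀ i, ∑ j, a i j * (y j - x j) = ∑ j : A, a i j * (z j - x j) := by
    intro i
    have h1 : ∑ j : A, a i j * (z j - x j) = ∑ j : A, a i j * (y j - x j) := by
      refine Finset.sum_congr rfl fun j _ => ?_
      have h2 : y j = z j := by
        simp only [y]
        rw [dif_pos j.2]
      rw [h2]
    rw [h1, Finset.sum_coe_sort A (fun j => a i j * (y j - x j))]
    symm
    refine Finset.sum_subset (Finset.subset_univ _) fun j _ hj => ?_
    simp only [y]
    rw [dif_neg hj, sub_self, mul_zero]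
  have h1 : H167FK.Sys.alive y = (H167FK.Sys.alive z).map (Function.Embedding.subtype _) := by
    ext j
    constructor
    · intro hj
      unfold H167FK.Sys.alive at hj
      rw [Finset.mem_filter] at hj
      have hjA : j ∈ A := by
        by_contra hcon
        have h2 : y j = x j := by
          simp only [y]
          rw [dif_neg hcon]
        rw [h2] at hj
        apply hcon
        rw [hA]
        unfold H167FK.Sys.alive
        rw [Finset.mem_filter]
        exact hj
      rw [Finset.mem_map]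
      refine ⟨⟨j, hjA⟩, ?_, rfl⟩
      unfold H167FK.Sys.alive
      rw [Finset.mem_filter]
      refine ⟨Finset.mem_univ _, ?_⟩
      have h2 : y j = z ⟨j, hjA⟩ := by
        simp only [y]
        rw [dif_pos hjA]
      rw [← h2]
      exact hj.2
    · intro hj
      rw [Finset.mem_map] at hj
      obtain ⟨⟨j', hj'⟩, hj1, hj2⟩ := hj
      have hjj : j' = j := hj2
      subst hjj
      unfold H167FK.Sys.alive at hj1 ⊢
      rw [Finset.mem_filter] at hj1 ⊢
      refine ⟨Finset.mem_univ _, ?_⟩
      have h2 : y j' = z ⟨j', hj'⟩ := by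
        simp only [y]
        rw [dif_pos hj']
      rw [h2]
      exact hj1.2
  refine ⟨y, fun j => ?_, fun j hj => ?_, fun i hi => ?_, fun i hi => ?_, fun i hi hbig => ?_, ?_⟩
  · simp only [y]
    split_ifs with h
    · exact hz1 _
    · exact hx j
  · have h2 : j ∉ A := by
      rw [hA]
      unfold H167FK.Sys.alive
      rw [Finset.mem_filter, hj]
      simp
    simp only [y]
    rw [dif_neg h2]
  · rw [hsum]
    exact hz2 i hi
  · rw [hsum]
    exact hz3 i hi
  · rw [hsum]
    apply hz5 i hi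
    rw [h1, Finset.sum_map] at hbig
    exact hbig
  · have h2 : (H167FK.Sys.alive y).card = (H167FK.Sys.alive z).card := by
      rw [h1, Finset.card_map]
    rw [h2]
    refine hz4.trans (le_of_eq ?_)
    have h4 : Fintype.card A = A.card := Fintype.card_coe A
    rw [h4]

end Pool.Agent.N243
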