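import Pool.Agent.N243.Phase
import Pool.Agent.H167R2.FKWeight
import Pool.Agent.H167R2.BFLin

/-!
# The row-weighted process: all columns are coloured, few rows are lost
-/

namespace Pool.Agent.N243

open Finset Real H167FK

open H167FK.Sys (alive)

theorem mem_alive' {J : Type} [Fintype J] {x : J → ℝ} {j : J} :
    j ∈ (alive x : Finset J) ↔ |x j| < 1 := by
  classical
  unfold H167FK.Sys.alive
  rw [Finset.mem_filter]
  simp

/-- Moving to a point with few fractional coordinates without changing the row sums. -/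
theorem reduce {I J : Type} [Fintype I] [Fintype J] (a : I → J → ℝ) : ∀ (n : ℕ) (x : J → ℝ),
    (∀ j, |x j| ≤ 1) → (alive x : Finset J).card ≤ n →
    ∃ y : J → ℝ, (∀ j, |y j| ≤ 1) ∧ (∀ i, ∑ v, a i v * (y v - x v) = 0) ∧
      (alive y : Finset J).card ≤ Fintype.card I := by
  classical
  intro n
  induction n with
  | zero =>
    intro x hx hn
    exact ⟨x, hx, fun i => by simp, hn.trans (Nat.zero_le _)⟩
  | succ n ih =>
    intro x hx hn
    by_cases hc : (alive x : Finset J).card ≤ Fintype.card I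
    · exact ⟨x, hx, fun i => by simp, hc⟩
    · push Not at hc
      obtain ⟨u, huF, ⟨v0, hv0, huv0⟩, hu⟩ := H167BF.exists_direction (alive x : Finset J)
        (Finset.univ : Finset I) (fun i => H167FK.Sys.lin (a i)) (by simpa using hc)
      have hu' : ∀ i, ∑ v, a i v * u v = 0 := by
        intro i
        have := hu i (Finset.mem_univ i)
        rwa [H167FK.Sys.lin_apply] at this
      obtain ⟨s, hs0, hs1, k, hk, hkw, hkt⟩ := H167BF.ray_lemma
        (Finset.univ : Finset (J × Bool))
        (fun q => if q.2 then x q.1 else - x q.1) (fun q => if q.2 then u q.1 else - u q.1)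
        (fun _ => 1)
        (by
          rintro ⟨v, b⟩ -
          have := abs_le.mp (hx v)
          cases b <;> simp <;> linarith)
        (by
          rcases lt_or_gt_of_ne huv0 with h | h
          · exact ⟨(v0, false), by simp, by simpa using h⟩
          · exact ⟨(v0, true), by simp, by simpa using h⟩)
      set x' : J → ℝ := fun v => x v + s * u v with hx'
      have hbox : ∀ j, |x' j| ≤ 1 := by
        intro j
        have h1 := hs1 (j, true) (Finset.mem_univ _)
        have h2 := hs1 (j, false) (Finset.mem_univ _)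
        simp only [if_true, Bool.false_eq_true, if_false] at h1 h2
        rw [abs_le]
        constructor
        · simp only [hx']; linarith
        · simp only [hx']; linarith
      have hk1 : k.1 ∈ (alive x : Finset J) := by
        by_contra hcon
        have h1 := huF k.1 hcon
        rcases hb : k.2 with _ | _
        · rw [hb] at hkw; simp [h1] at hkw
        · rw [hb] at hkw; simp [h1] at hkw
      have hk2 : k.1 ∉ (alive x' : Finset J) := by
        rw [mem_alive']
        intro hlt
        have h3 := abs_lt.mp hlt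
        rcases hb : k.2 with _ | _
        · rw [hb] at hkt
          simp only [Bool.false_eq_true, if_false] at hkt
          simp only [hx'] at h3
          linarith [h3.1]
        · rw [hb] at hkt
          simp only [if_true] at hkt
          simp only [hx'] at h3
          linarith [h3.2]
      have hsub : (alive x' : Finset J) ⊆ alive x := by
        intro j hj
        by_contra hcon
        have h1 : x' j = x j := by simp only [hx', huF j hcon, mul_zero, add_zero]
        rw [mem_alive'] at hj hcon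
        rw [h1] at hj
        exact hcon hj
      have hlt : (alive x' : Finset J).card < (alive x : Finset J).card := by
        apply Finset.card_lt_card
        exact ⟨hsub, fun hcon => hk2 (hcon hk1)⟩
      obtain ⟨y, hy1, hy2, hy3⟩ := ih x' hbox (by omega)
      refine ⟨y, hy1, fun i => ?_, hy3⟩
      have h1 := hy2 i
      have h2 : ∑ v, a i v * (y v - x v) = ∑ v, a i v * (y v - x' v) + s * ∑ v, a i v * u v := by
        rw [Finset.mul_sum, ← Finset.sum_add_distrib]
        exact Finset.sum_congr rfl fun v _ => by simp only [hx']; ring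
      rw [h2, h1, hu' i]; ring

/-- The budget of the `l`-th phase of a row. -/
noncomputable def wt (l : ℕ) : ℝ := if l ≤ 2 then 1 else (1 / 2) ^ l

theorem wt_pos (l : ℕ) : 0 < wt l := by
  unfold wt; split_ifs <;> positivity

theorem wt_le (l : ℕ) : wt l ≤ 1 := by
  unfold wt
  split_ifs
  · exact le_rfl
  · exact pow_le_one₀ (by norm_num) (by norm_num)

theorem sum_wt (r : ℕ) : ∑ l ∈ range r, wt l ≤ 4 := by
  have h1 : ∀ r : ℕ, ∑ l ∈ range (r + 3), wt l ≤ 4 - (1 / 2) ^ r := by
    intro r
    induction r with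
    | zero =>
      simp only [Finset.sum_range_succ, Finset.sum_range_zero, wt]
      norm_num
    | succ r ih =>
      have h2 : r + 1 + 3 = (r + 3) + 1 := by ring
      rw [h2, Finset.sum_range_succ]
      have h3 : wt (r + 3) = (1 / 2) ^ (r + 3) := by
        unfold wt
        rw [if_neg (by omega)]
      rw [h3]
      have h4 : (1 / 2 : ℝ) ^ (r + 3) = (1 / 8) * (1 / 2) ^ r := by rw [pow_add]; norm_num; ring
      have h5 : (1 / 2 : ℝ) ^ (r + 1) = (1 / 2) * (1 / 2) ^ r := by rw [pow_succ]; ring
      rw [h4, h5]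
      have h6 : (0 : ℝ) < (1 / 2) ^ r := by positivity
      linarith
  have h2 := h1 r
  have h3 : (0 : ℝ) < (1 / 2) ^ r := by positivity
  have h4 : ∑ l ∈ range r, wt l ≤ ∑ l ∈ range (r + 3), wt l := by
    refine Finset.sum_le_sum_of_subset_of_nonneg ?_ fun j _ _ => (wt_pos j).le
    intro j hj
    rw [Finset.mem_range] at hj ⊢
    omega
  linarith

variable {m n : ℕ}

/-- The rows of a smaller class than `k`. -/
def low (κ : Fin m → ℕ) (k : ℕ) : Finset (Fin m) := Finset.univ.filter fun i => κ i < k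

/-- The state of the process. `X i` is the set of the (relative) phases in which the row `i` was
expensive. -/
structure St (a : Fin m → Fin n → ℝ) (x0 : Fin n → ℝ) (t s C : ℝ) (M : ℕ) (κ : Fin m → ℕ) (k : ℕ)
    (R : ℝ) (x : Fin n → ℝ) (X : Fin m → Finset ℕ) : Prop where
  box : ∀ j, |x j| ≤ 1
  few : ((alive x : Finset (Fin n)).card : ℝ) ≤ 20 * ((low κ k).card : ℝ) + 42 / 43 * (M : ℝ) ^ k
  good : ∀ i, |∑ j, a i j * (x j - x0 j)| ≤
    C * (∑ l ∈ range (κ i + 1 - k), wt l + ((X i).card : ℝ))
  rel : ∀ i, ∀ l ∈ X i, 3 ≤ l ∧ l < κ i + 1 - k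
  bad : ∀ c l, (((Finset.univ.filter (fun i => κ i = c ∧ l ∈ X i)).card : ℕ) : ℝ) ≤
    21 * s ^ 4 * ((M : ℝ) ^ (c + 1 - l) * 16 ^ l)
  all : ∀ i, |∑ j, a i j * (x j - x0 j)| ≤ C * R
  sure : (∀ i j, |a i j| ≤ a i j ^ 2) → ∀ i, X i ≠ ∅ →
    (10 * t < ∑ j ∈ (alive x : Finset (Fin n)), a i j ^ 2 ∧
      |∑ j, a i j * (x j - x0 j)| ≤ 4 * C) ∨
    ∀ z : Fin n → ℝ, (∀ j, |z j| ≤ 1) → (∀ j, |x j| = 1 → z j = x j) →
      |∑ j, a i j * (z j - x0 j)| ≤ 5 * C + 20 * t

/-- Extensions of a point with small alive energy. -/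
theorem ext_le (a : Fin m → Fin n → ℝ) (x0 : Fin n → ℝ) (t c : ℝ)
    (h01 : ∀ i j, |a i j| ≤ a i j ^ 2) (x : Fin n → ℝ) (hx : ∀ j, |x j| ≤ 1) (i : Fin m)
    (hE : ∑ j ∈ (alive x : Finset (Fin n)), a i j ^ 2 ≤ 10 * t)
    (hc : |∑ j, a i j * (x j - x0 j)| ≤ c) (z : Fin n → ℝ) (hz : ∀ j, |z j| ≤ 1)
    (hzx : ∀ j, |x j| = 1 → z j = x j) :
    |∑ j, a i j * (z j - x0 j)| ≤ c + 20 * t := by
  classical
  have h1 : ∑ j, a i j * (z j - x0 j)
      = ∑ j, a i j * (z j - x j) + ∑ j, a i j * (x j - x0 j) := by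
    rw [← Finset.sum_add_distrib]
    exact Finset.sum_congr rfl fun j _ => by ring
  have h2 : ∑ j, a i j * (z j - x j)
      = ∑ j ∈ (alive x : Finset (Fin n)), a i j * (z j - x j) := by
    symm
    refine Finset.sum_subset (Finset.subset_univ _) fun j _ hj => ?_
    rw [hzx j (H167FK.Sys.abs_eq_one hx hj), sub_self, mul_zero]
  have h3 : |∑ j ∈ (alive x : Finset (Fin n)), a i j * (z j - x j)| ≤
      ∑ j ∈ (alive x : Finset (Fin n)), 2 * a i j ^ 2 := by
    refine (Finset.abs_sum_le_sum_abs _ _).trans (Finset.sum_le_sum fun j _ => ?_)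
    rw [abs_mul]
    have h4 : |z j - x j| ≤ 2 := by
      have h5 := abs_le.mp (hz j)
      have h6 := abs_le.mp (hx j)
      rw [abs_le]; constructor <;> linarith [h5.1, h5.2, h6.1, h6.2]
    have h5 := h01 i j
    have h6 := abs_nonneg (a i j)
    have h7 := abs_nonneg (z j - x j)
    nlinarith
  rw [← Finset.mul_sum] at h3
  rw [h1, h2]
  have h4 := abs_add_le (∑ j ∈ (alive x : Finset (Fin n)), a i j * (z j - x j))
    (∑ j, a i j * (x j - x0 j))
  linarith

theorem step (a : Fin m → Fin n → ℝ) (t : ℝ) (ht : 1 ≤ t) (a1 : ∀ i j, |a i j| ≤ 1)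
    (col : ∀ j, ∑ i, a i j ^ 2 ≤ t) (L : ℝ) (hL : 1 ≤ L) (s : ℝ) (hs : 1 ≤ s)
    (hsL : 960 * L ≤ s ^ 4) (M : ℕ) (hM : 32 ≤ M) (hexp : 43 * (M : ℝ) * exp (-L) ≤ 1)
    (κ : Fin m → ℕ) (hκ : ∀ k, ((low κ k).card : ℝ) ≤ (M : ℝ) ^ k)
    (x0 : Fin n → ℝ) (k : ℕ) (R : ℝ) (x : Fin n → ℝ) (X : Fin m → Finset ℕ)
    (h : St a x0 t s (cst t L) M κ (k + 1) R x X) :
    ∃ y X', St a x0 t s (cst t L) M κ k (R + 1) y X' := by
  classical
  have hs4 : 0 < s ^ 4 := by positivity
  have hMR : (32 : ℝ) ≤ M := by exact_mod_cast hM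
  have hMk : (0 : ℝ) < (M : ℝ) ^ k := by positivity
  have hC0 : 0 ≤ cst t L := cst_nonneg ht
  have halive : ((alive x : Finset (Fin n)).card : ℝ) ≤ 21 * (M : ℝ) ^ (k + 1) := by
    have h1 := h.few
    have h2 := hκ (k + 1)
    have h3 : (0 : ℝ) < (M : ℝ) ^ (k + 1) := by positivity
    linarith
  -- the energy of a row
  let En : Fin m → ℝ := fun i => ∑ j ∈ (alive x : Finset (Fin n)), a i j ^ 2
  have hEn0 : ∀ i, 0 ≤ En i := fun i => Finset.sum_nonneg fun _ _ => sq_nonneg _
  let N : Finset (Fin m) := Finset.univ.filter fun i => k + 3 ≤ κ i ∧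
    t * ((1 / 2) ^ (κ i - k) / s) ^ 4 < En i
  let τ : Fin m → ℝ := fun i => if i ∈ N then 1 else wt (κ i - k)
  have hτ1 : ∀ i, τ i ≤ 1 := by
    intro i
    simp only [τ]
    split_ifs
    · exact le_rfl
    · exact wt_le _
  obtain ⟨y, hy1, hyf, hy2, hy3, hy5, hy4⟩ := phase a t ht a1 col L hL s hs hsL (low κ k)
    (Finset.univ.filter fun i => k ≤ κ i) τ (fun i _ => by
      simp only [τ]
      split_ifs
      · exact one_pos
      · exact wt_pos _)
    (fun i _ => hτ1 i) x h.box (by
      intro i hi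
      rw [Finset.mem_filter] at hi
      obtain ⟨-, hi1⟩ := hi
      by_cases hi2 : i ∈ N
      · left
        simp only [τ]
        rw [if_pos hi2]
      by_cases h3 : k + 3 ≤ κ i
      · right
        have h4 : ¬ (t * ((1 / 2) ^ (κ i - k) / s) ^ 4 < En i) := by
          intro h5
          exact hi2 (Finset.mem_filter.mpr ⟨Finset.mem_univ _, h3, h5⟩)
        push Not at h4
        have h5 : τ i = (1 / 2) ^ (κ i - k) := by
          simp only [τ, wt]
          rw [if_neg hi2, if_neg (by omega)]
        rw [h5]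
        exact h4
      · left
        simp only [τ, wt]
        rw [if_neg hi2, if_pos (by omega)])
  -- the increments of all rows
  have hinc : ∀ i, |∑ j, a i j * (y j - x j)| ≤ cst t L := by
    intro i
    by_cases hk : k ≤ κ i
    · have h1 := hy3 i (Finset.mem_filter.mpr ⟨Finset.mem_univ _, hk⟩)
      have h2 := mul_le_mul_of_nonneg_left (hτ1 i) hC0
      linarith
    · push Not at hk
      rw [hy2 i (Finset.mem_filter.mpr ⟨Finset.mem_univ _, hk⟩), abs_zero]
      exact hC0
  have hbig : ∀ i, 10 * t < ∑ j ∈ (alive y : Finset (Fin n)), a i j ^ 2 →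
      ∑ j, a i j * (y j - x j) = 0 := by
    intro i hi
    by_cases hk : k ≤ κ i
    · exact hy5 i (Finset.mem_filter.mpr ⟨Finset.mem_univ _, hk⟩) hi
    · push Not at hk
      exact hy2 i (Finset.mem_filter.mpr ⟨Finset.mem_univ _, hk⟩)
  have hsum : ∀ i, ∑ j, a i j * (y j - x0 j)
      = ∑ j, a i j * (y j - x j) + ∑ j, a i j * (x j - x0 j) := by
    intro i
    rw [← Finset.sum_add_distrib]
    exact Finset.sum_congr rfl fun j _ => by ring
  let X' : Fin m → Finset ℕ := fun i => if i ∈ N then insert (κ i - k) (X i) else X i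
  refine ⟨y, X', ⟨hy1, ?_, ?_, ?_, ?_, ?_, ?_⟩⟩
  · refine hy4.trans ?_
    have h1 : 2 * ((alive x : Finset (Fin n)).card : ℝ) * exp (-L) ≤
        2 * (21 * (M : ℝ) ^ (k + 1)) * exp (-L) := by
      apply mul_le_mul_of_nonneg_right _ (exp_pos _).le
      linarith
    have h2 : 2 * (21 * (M : ℝ) ^ (k + 1)) * exp (-L)
        = 42 / 43 * (M : ℝ) ^ k * (43 * M * exp (-L)) := by rw [pow_succ]; ring
    have h3 : 42 / 43 * (M : ℝ) ^ k * (43 * M * exp (-L)) ≤ 42 / 43 * (M : ℝ) ^ k * 1 :=
      mul_le_mul_of_nonneg_left hexp (by positivity)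
    linarith
  · intro i
    have hold := h.good i
    rw [hsum]
    by_cases hk : k ≤ κ i
    · have h1 := hy3 i (Finset.mem_filter.mpr ⟨Finset.mem_univ _, hk⟩)
      have h2 : κ i + 1 - k = (κ i + 1 - (k + 1)) + 1 := by omega
      have h3 : κ i - k = κ i + 1 - (k + 1) := by omega
      rw [h2, Finset.sum_range_succ]
      have h5 := abs_add_le (∑ j, a i j * (y j - x j)) (∑ j, a i j * (x j - x0 j))
      have h6 := wt_pos (κ i + 1 - (k + 1))
      by_cases hN : i ∈ N
      · have h4 : τ i = 1 := by simp only [τ]; rw [if_pos hN]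
        rw [h4, mul_one] at h1
        have h7 : ((X' i).card : ℝ) = ((X i).card : ℝ) + 1 := by
          have h8 : κ i - k ∉ X i := by
            intro h9
            have := (h.rel i _ h9).2
            omega
          simp only [X']
          rw [if_pos hN, Finset.card_insert_of_notMem h8]
          push_cast
          ring
        rw [h7]
        have h8 : 0 ≤ cst t L * wt (κ i + 1 - (k + 1)) := mul_nonneg hC0 h6.le
        linarith
      · have h4 : τ i = wt (κ i + 1 - (k + 1)) := by
          simp only [τ]; rw [if_neg hN, h3]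
        rw [h4] at h1
        have h7 : X' i = X i := by simp only [X']; rw [if_neg hN]
        rw [h7]
        linarith
    · push Not at hk
      have h1 := hy2 i (Finset.mem_filter.mpr ⟨Finset.mem_univ _, hk⟩)
      have h2 : κ i + 1 - k = 0 := by omega
      have h3 : κ i + 1 - (k + 1) = 0 := by omega
      rw [h3] at hold
      have hN : i ∉ N := by
        intro hN
        have := (Finset.mem_filter.mp hN).2.1
        omega
      have h7 : X' i = X i := by simp only [X']; rw [if_neg hN]
      rw [h1, h2, h7, zero_add]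
      exact hold
  · intro i l hl
    by_cases hN : i ∈ N
    · simp only [X'] at hl
      rw [if_pos hN, Finset.mem_insert] at hl
      have h1 := (Finset.mem_filter.mp hN).2.1
      rcases hl with hl | hl
      · omega
      · have := h.rel i l hl
        omega
    · simp only [X'] at hl
      rw [if_neg hN] at hl
      have := h.rel i l hl
      omega
  · intro c l
    by_cases hcl : k + 3 ≤ c ∧ l = c - k
    · obtain ⟨hc3, hl⟩ := hcl
      have hset : (Finset.univ.filter (fun i => κ i = c ∧ l ∈ X' i)) ⊆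
          N.filter (fun i => κ i = c) := by
        intro i hi
        rw [Finset.mem_filter] at hi
        obtain ⟨-, h1, h2⟩ := hi
        rw [Finset.mem_filter]
        refine ⟨?_, h1⟩
        by_contra hN
        simp only [X'] at h2
        rw [if_neg hN] at h2
        have := (h.rel i l h2).2
        omega
      have hcard : ((Finset.univ.filter (fun i => κ i = c ∧ l ∈ X' i)).card : ℝ) ≤
          ((N.filter (fun i => κ i = c)).card : ℝ) := by
        exact_mod_cast Finset.card_le_card hset
      refine hcard.trans ?_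
      have hexp' : c + 1 - l = k + 1 := by omega
      rw [hexp', hl]
      have h6 : ((N.filter (fun i => κ i = c)).card : ℝ) * (t * ((1 / 2) ^ (c - k) / s) ^ 4)
          ≤ ∑ i ∈ N.filter (fun i => κ i = c), En i := by
        rw [← nsmul_eq_mul]
        apply Finset.card_nsmul_le_sum
        intro i hi
        rw [Finset.mem_filter] at hi
        have h7 := (Finset.mem_filter.mp hi.1).2.2
        rw [hi.2] at h7
        exact h7.le
      have h7 : ∑ i ∈ N.filter (fun i => κ i = c), En i ≤ t * (21 * (M : ℝ) ^ (k + 1)) := by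
        calc ∑ i ∈ N.filter (fun i => κ i = c), En i ≤ ∑ i, En i :=
              Finset.sum_le_sum_of_subset_of_nonneg (Finset.subset_univ _) fun i _ _ => hEn0 i
          _ = ∑ j ∈ (alive x : Finset (Fin n)), ∑ i, a i j ^ 2 := Finset.sum_comm
          _ ≤ ∑ j ∈ (alive x : Finset (Fin n)), t := Finset.sum_le_sum fun j _ => col j
          _ = ((alive x : Finset (Fin n)).card : ℝ) * t := by
              rw [Finset.sum_const, nsmul_eq_mul]
          _ ≤ (21 * (M : ℝ) ^ (k + 1)) * t := mul_le_mul_of_nonneg_right halive (by linarith)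
          _ = _ := by ring
      have h8 := h6.trans h7
      have h9 : ((1 / 2 : ℝ) ^ (c - k) / s) ^ 4 = 1 / (16 ^ (c - k) * s ^ 4) := by
        rw [div_pow, ← pow_mul, mul_comm (c - k) 4, pow_mul]
        have h10 : ((1 / 2 : ℝ) ^ 4) = 1 / 16 := by norm_num
        rw [h10, div_pow, one_pow]
        field_simp
      rw [h9] at h8
      have h10 : (0 : ℝ) < 16 ^ (c - k) * s ^ 4 := by positivity
      have h11 : ((N.filter (fun i => κ i = c)).card : ℝ) * t ≤ t * (21 * (M : ℝ) ^ (k + 1)) *
          (16 ^ (c - k) * s ^ 4) := by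
        have h12 := mul_le_mul_of_nonneg_right h8 h10.le
        refine le_trans (le_of_eq ?_) h12
        field_simp
      have h13 : t * ((N.filter (fun i => κ i = c)).card : ℝ) ≤
          t * (21 * s ^ 4 * ((M : ℝ) ^ (k + 1) * 16 ^ (c - k))) := by
        refine le_trans (le_of_eq (mul_comm _ _)) (h11.trans (le_of_eq ?_))
        ring
      exact le_of_mul_le_mul_left h13 (by linarith)
    · have hset : (Finset.univ.filter (fun i => κ i = c ∧ l ∈ X' i)) ⊆
          (Finset.univ.filter (fun i => κ i = c ∧ l ∈ X i)) := by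
        intro i hi
        rw [Finset.mem_filter] at hi ⊢
        obtain ⟨h0, h1, h2⟩ := hi
        refine ⟨h0, h1, ?_⟩
        by_cases hN : i ∈ N
        · simp only [X'] at h2
          rw [if_pos hN, Finset.mem_insert] at h2
          have h3 := (Finset.mem_filter.mp hN).2.1
          rcases h2 with h2 | h2
          · exact absurd ⟨by omega, by omega⟩ hcl
          · exact h2
        · simp only [X'] at h2
          rw [if_neg hN] at h2
          exact h2
      have hcard : ((Finset.univ.filter (fun i => κ i = c ∧ l ∈ X' i)).card : ℝ) ≤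
          ((Finset.univ.filter (fun i => κ i = c ∧ l ∈ X i)).card : ℝ) := by
        exact_mod_cast Finset.card_le_card hset
      exact hcard.trans (h.bad c l)
  · intro i
    rw [hsum]
    have h1 := abs_add_le (∑ j, a i j * (y j - x j)) (∑ j, a i j * (x j - x0 j))
    have h2 := hinc i
    have h3 := h.all i
    linarith
  · intro h01 i hi
    -- the old alternative
    have hold : (|∑ j, a i j * (x j - x0 j)| ≤ 4 * cst t L) ∨
        ∀ z : Fin n → ℝ, (∀ j, |z j| ≤ 1) → (∀ j, |x j| = 1 → z j = x j) →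
          |∑ j, a i j * (z j - x0 j)| ≤ 5 * cst t L + 20 * t := by
      by_cases hiD : X i = ∅
      · left
        have h1 := h.good i
        rw [hiD, Finset.card_empty, Nat.cast_zero, add_zero] at h1
        have h2 := mul_le_mul_of_nonneg_left (sum_wt (κ i + 1 - (k + 1))) hC0
        linarith
      · rcases h.sure h01 i hiD with h1 | h1
        · exact Or.inl h1.2
        · exact Or.inr h1
    rcases hold with h1 | h1
    · by_cases hE : 10 * t < ∑ j ∈ (alive y : Finset (Fin n)), a i j ^ 2
      · left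
        refine ⟨hE, ?_⟩
        rw [hsum, hbig i hE, zero_add]
        exact h1
      · right
        push Not at hE
        have h2 : |∑ j, a i j * (y j - x0 j)| ≤ 5 * cst t L := by
          rw [hsum]
          have h3 := abs_add_le (∑ j, a i j * (y j - x j)) (∑ j, a i j * (x j - x0 j))
          have h4 := hinc i
          linarith
        exact fun z hz hzy => ext_le a x0 t _ h01 y hy1 i hE h2 z hz hzy
    · right
      intro z hz hzy
      exact h1 z hz fun j hj => by
        have h2 := hyf j hj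
        rw [← h2]
        exact hzy j (by rw [h2]; exact hj)

/-- All phases. -/
theorem all_phases (a : Fin m → Fin n → ℝ) (t : ℝ) (ht : 1 ≤ t) (a1 : ∀ i j, |a i j| ≤ 1)
    (col : ∀ j, ∑ i, a i j ^ 2 ≤ t) (L : ℝ) (hL : 1 ≤ L) (s : ℝ) (hs : 1 ≤ s)
    (hsL : 960 * L ≤ s ^ 4) (M : ℕ) (hM : 32 ≤ M) (hexp : 43 * (M : ℝ) * exp (-L) ≤ 1)
    (κ : Fin m → ℕ) (hκ : ∀ k, ((low κ k).card : ℝ) ≤ (M : ℝ) ^ k)
    (x0 : Fin n → ℝ) (hx0 : ∀ j, |x0 j| ≤ 1) :
    ∃ x X, St a x0 t s (cst t L) M κ 0 ((Nat.log M (min m n) : ℕ) + 2) x X := by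
  classical
  set K := Nat.log M (min m n) with hK
  have hC0 : 0 ≤ cst t L := cst_nonneg ht
  have hMR : (32 : ℝ) ≤ M := by exact_mod_cast hM
  have hmain : ∀ d k, k + d = K + 2 → ∃ x X, St a x0 t s (cst t L) M κ k (d : ℕ) x X := by
    intro d
    induction d with
    | zero =>
      intro k hk
      rw [add_zero] at hk
      subst hk
      obtain ⟨y, hy1, hy2, hy3⟩ := reduce a _ x0 hx0 le_rfl
      refine ⟨y, fun _ => ∅, ⟨hy1, ?_, ?_, ?_, ?_, ?_, ?_⟩⟩
      · have h1 : (alive y : Finset (Fin n)).card ≤ min m n := by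
          apply le_min
          · rw [Fintype.card_fin] at hy3
            exact hy3
          · exact (Finset.card_le_univ _).trans (Fintype.card_fin n).le
        have h2 : min m n < M ^ (K + 1) := Nat.lt_pow_succ_log_self (by omega) _
        have h3 : ((alive y : Finset (Fin n)).card : ℝ) ≤ (M : ℝ) ^ (K + 1) := by
          exact_mod_cast h1.trans h2.le
        have h4 : (M : ℝ) ^ (K + 2) = M * (M : ℝ) ^ (K + 1) := by ring
        have h5 : (0 : ℝ) < (M : ℝ) ^ (K + 1) := by positivity
        have h6 : (0 : ℝ) ≤ ((low κ (K + 2)).card : ℝ) := Nat.cast_nonneg _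
        rw [h4]
        nlinarith
      · intro i
        rw [hy2 i, abs_zero]
        have : 0 ≤ ∑ l ∈ range (κ i + 1 - (K + 2)), wt l :=
          Finset.sum_nonneg fun l _ => (wt_pos l).le
        positivity
      · intro i l hl
        exact absurd hl (Finset.notMem_empty l)
      · intro c l
        have h1 : (Finset.univ.filter (fun i : Fin m => κ i = c ∧ l ∈ (∅ : Finset ℕ))) = ∅ := by
          rw [Finset.filter_eq_empty_iff]
          intro i _ h2
          exact absurd h2.2 (Finset.notMem_empty l)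
        rw [h1, Finset.card_empty, Nat.cast_zero]
        positivity
      · intro i
        rw [hy2 i, abs_zero]
        simp
      · intro _ i hi
        exact absurd rfl hi
    | succ d ih =>
      intro k hk
      obtain ⟨x, X, h⟩ := ih (k + 1) (by omega)
      obtain ⟨y, X', h'⟩ := step a t ht a1 col L hL s hs hsL M hM hexp κ hκ x0 k _ x X h
      refine ⟨y, X', ?_⟩
      rw [Nat.cast_add, Nat.cast_one]
      exact h'
  obtain ⟨x, X, h⟩ := hmain (K + 2) 0 (by omega)
  refine ⟨x, X, ?_⟩
  rw [Nat.cast_add] at h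
  exact_mod_cast h

/-- The end of the process. -/
theorem process (a : Fin m → Fin n → ℝ) (t : ℝ) (ht : 1 ≤ t) (a1 : ∀ i j, |a i j| ≤ 1)
    (col : ∀ j, ∑ i, a i j ^ 2 ≤ t) (L : ℝ) (hL : 1 ≤ L) (s : ℝ) (hs : 1 ≤ s)
    (hsL : 960 * L ≤ s ^ 4) (M : ℕ) (hM : 32 ≤ M) (hexp : 43 * (M : ℝ) * exp (-L) ≤ 1)
    (κ : Fin m → ℕ) (hκ : ∀ k, ((low κ k).card : ℝ) ≤ (M : ℝ) ^ k)
    (x0 : Fin n → ℝ) (hx0 : ∀ j, |x0 j| ≤ 1) :
    ∃ (x : Fin n → ℝ) (X : Fin m → Finset ℕ), (∀ j, |x j| = 1) ∧
      (∀ i, |∑ j, a i j * (x j - x0 j)| ≤ cst t L * ((Nat.log M (min m n) : ℕ) + 2)) ∧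
      ((∀ i j, |a i j| ≤ a i j ^ 2) →
        ∀ i, |∑ j, a i j * (x j - x0 j)| ≤ 5 * cst t L + 20 * t) ∧
      (∀ (i : Fin m) (r : ℕ), (∀ l ∈ X i, l < r + 3) →
        |∑ j, a i j * (x j - x0 j)| ≤ cst t L * (4 + r)) ∧
      (∀ i, ∀ l ∈ X i, l ≤ κ i) ∧
      (∀ c l, (((Finset.univ.filter (fun i => κ i = c ∧ l ∈ X i)).card : ℕ) : ℝ) ≤
        21 * s ^ 4 * ((M : ℝ) ^ (c + 1 - l) * 16 ^ l)) := by
  classical
  obtain ⟨x, X, h⟩ := all_phases a t ht a1 col L hL s hs hsL M hM hexp κ hκ x0 hx0
  have hC0 : 0 ≤ cst t L := cst_nonneg ht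
  have hempty : (alive x : Finset (Fin n)) = ∅ := by
    have h1 := h.few
    have h2 : low κ 0 = ∅ := by
      unfold low
      rw [Finset.filter_eq_empty_iff]
      intro i _
      omega
    rw [h2, Finset.card_empty, pow_zero, Nat.cast_zero] at h1
    have h3 : ((alive x : Finset (Fin n)).card : ℝ) < 1 := by linarith
    have h4 : (alive x : Finset (Fin n)).card = 0 := by
      have : (alive x : Finset (Fin n)).card < 1 := by exact_mod_cast h3
      omega
    exact Finset.card_eq_zero.mp h4
  refine ⟨x, X, ?_, h.all, ?_, ?_, ?_, h.bad⟩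
  · intro j
    refine H167FK.Sys.abs_eq_one h.box ?_
    rw [hempty]
    simp
  · intro h01 i
    by_cases hi : X i = ∅
    · have h1 := h.good i
      rw [hi, Finset.card_empty, Nat.cast_zero, add_zero] at h1
      have h2 := mul_le_mul_of_nonneg_left (sum_wt (κ i + 1 - 0)) hC0
      linarith
    · rcases h.sure h01 i hi with h1 | h1
      · exfalso
        have h2 := h1.1
        rw [hempty, Finset.sum_empty] at h2
        linarith
      · exact h1 x h.box fun _ _ => rfl
  · intro i r hr
    have h1 := h.good i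
    have h2 : (X i).card ≤ r := by
      have h3 : X i ⊆ Finset.Ico 3 (r + 3) := by
        intro l hl
        rw [Finset.mem_Ico]
        exact ⟨(h.rel i l hl).1, hr l hl⟩
      have h4 := Finset.card_le_card h3
      rw [Nat.card_Ico] at h4
      omega
    have h3 : ((X i).card : ℝ) ≤ r := by exact_mod_cast h2
    have h4 := sum_wt (κ i + 1 - 0)
    have h5 : cst t L * (∑ l ∈ range (κ i + 1 - 0), wt l + ((X i).card : ℝ)) ≤
        cst t L * (4 + r) := mul_le_mul_of_nonneg_left (by linarith) hC0
    exact h1.trans h5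
  · intro i l hl
    have := (h.rel i l hl).2
    omega

end Pool.Agent.N243
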